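import Mathlib
import Pool.Agent.Q113.XK.All0

/-!
# The Erdős matching conjecture for `n ≥ n0(r)` and all `k`, in the notation of the row
-/

set_option autoImplicit false

namespace Pool.Agent.Results.MP_1aab60_co.LargeGroundSets

open Finset

/-- a `k`-matching of `F`: `k` pairwise disjoint edges -/
def HasMatching {n : ℕ} (F : Finset (Finset (Fin n))) (k : ℕ) : Prop :=
  ∃ M ⊆ F, M.card = k ∧ (M : Set (Finset (Fin n))).PairwiseDisjoint id

/-- For every `r ≥ 3` there is `n0` such that for all `n ≥ n0` and ALL `k ≥ 1` with `r k - 1 ≤ n` the largest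
`r`-uniform hypergraph on `n` vertices without a `k`-matching has exactly
`max (C(rk-1,r)) (C(n,r) - C(n-k+1,r))` edges. -/
theorem result (r : ℕ) (hr : 3 ≤ r) : ∃ n0 : ℕ, ∀ n : ℕ, n0 ≤ n → ∀ k : ℕ, 1 ≤ k → r * k - 1 ≤ n →
    IsGreatest
      {m : ℕ | ∃ F : Finset (Finset (Fin n)), (∀ A ∈ F, A.card = r) ∧ ¬ HasMatching F k ∧ F.card = m}
      (max ((r * k - 1).choose r) (n.choose r - (n - k + 1).choose r)) := by
  obtain ⟨n0, h0⟩ := Pool.Agent.Q113.XK.xall r hr
  refine ⟨n0, fun n hn k hk hkn => ?_⟩
  have hrk : 1 ≤ r * k := Nat.mul_pos (by omega) hk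
  have hkk : 3 * k ≤ r * k := Nat.mul_le_mul_right _ hr
  have hub : ∀ m ∈ {m : ℕ | ∃ F : Finset (Finset (Fin n)),
      (∀ A ∈ F, A.card = r) ∧ ¬ HasMatching F k ∧ F.card = m},
      m ≤ max ((r * k - 1).choose r) (n.choose r - (n - k + 1).choose r) := by
    rintro m ⟨F, hF, hM, rfl⟩
    rcases Nat.lt_or_ge n (r * k) with hlt | hge
    · -- the complete family has no `k`-matching
      have hnr : n = r * k - 1 := by omega
      refine le_trans ?_ (le_max_left _ _)
      have h1 : F ⊆ (univ : Finset (Fin n)).powersetCard r := fun A hA =>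
        mem_powersetCard.2 ⟨subset_univ _, hF A hA⟩
      have h2 := card_le_card h1
      rw [card_powersetCard, card_univ, Fintype.card_fin] at h2
      rwa [← hnr]
    · by_contra hcon
      have hk1 : k - 1 + 1 = k := by omega
      have hlt : max (n.choose r - (n - (k - 1)).choose r) ((r * (k - 1 + 1) - 1).choose r) < F.card := by
        rw [hk1, max_comm]
        have : n - (k - 1) = n - k + 1 := by omega
        rw [this]
        exact not_le.1 hcon
      obtain ⟨M, hMF, hMM, hMc⟩ := h0 n hn (k - 1) (by rw [hk1]; exact hge) F hF hlt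
      exact hM ⟨M, hMF, by omega, fun a ha b hb hab => hMM a ha b hb hab⟩
  refine ⟨?_, hub⟩
  rcases le_total (n.choose r - (n - k + 1).choose r) ((r * k - 1).choose r) with h | h
  · rw [max_eq_left h]
    obtain ⟨T, -, hTc⟩ := Finset.exists_subset_card_eq (s := (univ : Finset (Fin n)))
      (n := r * k - 1) (by rw [card_univ, Fintype.card_fin]; omega)
    refine ⟨T.powersetCard r, fun A hA => (mem_powersetCard.1 hA).2, ?_, by
      rw [card_powersetCard, hTc]⟩
    rintro ⟨M, hM, hMc, hMd⟩
    have h1 : (M.biUnion id).card = ∑ A ∈ M, A.card := card_biUnion fun a ha b hb hab => hMd ha hb hab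
    have h2 : ∑ A ∈ M, A.card = M.card * r := by
      rw [sum_congr rfl (fun A hA => (mem_powersetCard.1 (hM hA)).2), sum_const, smul_eq_mul]
    have h3 : M.biUnion id ⊆ T := by
      intro v hv
      obtain ⟨A, hA, hvA⟩ := mem_biUnion.1 hv
      exact (mem_powersetCard.1 (hM hA)).1 hvA
    have h4 := card_le_card h3
    rw [h1, h2, hTc, hMc] at h4
    have h7 : k * r = r * k := by ring
    omega
  · rw [max_eq_right h]
    have hsn : k - 1 ≤ n := by omega
    obtain ⟨S, -, hSc⟩ := Finset.exists_subset_card_eq (s := (univ : Finset (Fin n))) (n := k - 1)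
      (by rw [card_univ, Fintype.card_fin]; exact hsn)
    refine ⟨((univ : Finset (Fin n)).powersetCard r) \ ((univ \ S).powersetCard r), ?_, ?_, ?_⟩
    · intro A hA
      exact (mem_powersetCard.1 (mem_sdiff.1 hA).1).2
    · rintro ⟨M, hM, hMc, hMd⟩
      have hne : ∀ A ∈ M, ∃ v ∈ S, v ∈ A := by
        intro A hA
        have h1 := mem_sdiff.1 (hM hA)
        by_contra hcon
        push Not at hcon
        apply h1.2
        rw [mem_powersetCard]
        refine ⟨fun v hv => ?_, (mem_powersetCard.1 h1.1).2⟩
        rw [mem_sdiff]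
        exact ⟨mem_univ _, fun hvS => hcon v hvS hv⟩
      have hle : M.card ≤ S.card := by
        rcases M.eq_empty_or_nonempty with hE | ⟨A0, hA0⟩
        · rw [hE]; simp
        · obtain ⟨v0, -, -⟩ := hne A0 hA0
          have hNe : Nonempty (Fin n) := ⟨v0⟩
          choose! f hf using hne
          have hinj : Set.InjOn f (M : Set (Finset (Fin n))) := by
            intro A hA B hB hAB
            by_contra hne
            have hd := hMd hA hB hne
            have h1 := (hf A hA).2
            have h2 := (hf B hB).2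
            rw [← hAB] at h2
            exact (Finset.disjoint_left.1 hd h1) h2
          exact card_le_card_of_injOn f (fun A hA => (hf A hA).1) hinj
      omega
    · rw [card_sdiff_of_subset (powersetCard_mono (subset_univ _)), card_powersetCard,
        card_powersetCard, card_sdiff_of_subset (subset_univ _), hSc, card_univ, Fintype.card_fin]
      have : n - (k - 1) = n - k + 1 := by omega
      rw [this]

end Pool.Agent.Results.MP_1aab60_co.LargeGroundSets
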